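import Pool.Agent.helper92.ISA.Spec2

/-!
Row isa:BIM (MP_069684_lc): binomial probabilities.
-/

set_option autoImplicit false

namespace Pool.Agent.ISA

open Pool.Agent.PB Pool.Agent.ISO

/-- the binomial probabilities -/
noncomputable def BIM_B (x : ℝ) (n i : ℕ) : ℝ := (n.choose i : ℝ) * x ^ i * (1 - x) ^ (n - i)

theorem BIM_nonneg {x : ℝ} (h0 : 0 ≤ x) (h1 : x ≤ 1) (n i : ℕ) : 0 ≤ BIM_B x n i := by
  have h2 : 0 ≤ 1 - x := by linarith
  unfold BIM_B
  positivity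

theorem BIM_a (x : ℝ) {n i : ℕ} (hi : i ≤ n) :
    BIM_B x (n + 1) i * ((n : ℝ) + 1 - i) = BIM_B x n i * (((n : ℝ) + 1) * (1 - x)) := by
  have e1 : n + 1 - i = n - i + 1 := by omega
  have e2 := Nat.choose_mul_succ_eq n i
  have e3 : ((n.choose i : ℕ) : ℝ) * ((n : ℝ) + 1) =
      (((n + 1).choose i : ℕ) : ℝ) * ((n : ℝ) + 1 - i) := by
    have e4 : ((n + 1 - i : ℕ) : ℝ) = (n : ℝ) + 1 - i := by
      rw [Nat.cast_sub (by omega)]
      push_cast
      ring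
    rw [← e4]
    exact_mod_cast e2
  unfold BIM_B
  rw [e1, pow_succ]
  calc (((n + 1).choose i : ℕ) : ℝ) * x ^ i * ((1 - x) ^ (n - i) * (1 - x)) * ((n : ℝ) + 1 - i)
      = ((((n + 1).choose i : ℕ) : ℝ) * ((n : ℝ) + 1 - i)) * x ^ i * (1 - x) ^ (n - i) * (1 - x) := by
        ring
    _ = _ := by rw [← e3]; ring

theorem BIM_b (x : ℝ) (n i : ℕ) :
    BIM_B x (n + 1) (i + 1) * ((i : ℝ) + 1) = BIM_B x n i * (((n : ℝ) + 1) * x) := by
  have e1 : n + 1 - (i + 1) = n - i := by omega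
  have e2 := Nat.add_one_mul_choose_eq n i
  have e3 : ((n : ℝ) + 1) * ((n.choose i : ℕ) : ℝ) =
      (((n + 1).choose (i + 1) : ℕ) : ℝ) * ((i : ℝ) + 1) := by
    exact_mod_cast e2
  unfold BIM_B
  rw [e1, pow_succ]
  calc (((n + 1).choose (i + 1) : ℕ) : ℝ) * (x ^ i * x) * (1 - x) ^ (n - i) * ((i : ℝ) + 1)
      = ((((n + 1).choose (i + 1) : ℕ) : ℝ) * ((i : ℝ) + 1)) * x ^ i * x * (1 - x) ^ (n - i) := by
        ring
    _ = _ := by rw [← e3]; ring

theorem BIM_c (x : ℝ) {R i : ℕ} (hi : i < R) :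
    BIM_B x R (i + 1) * (((i : ℝ) + 1) * (1 - x)) = BIM_B x R i * (((R : ℝ) - i) * x) := by
  have e1 : R - i = R - (i + 1) + 1 := by omega
  have e2 := Nat.choose_succ_right_eq R i
  have e3 : ((R.choose (i + 1) : ℕ) : ℝ) * ((i : ℝ) + 1) =
      ((R.choose i : ℕ) : ℝ) * ((R : ℝ) - i) := by
    rw [← Nat.cast_sub hi.le]
    exact_mod_cast e2
  unfold BIM_B
  rw [e1, pow_succ, pow_succ]
  calc ((R.choose (i + 1) : ℕ) : ℝ) * (x ^ i * x) * (1 - x) ^ (R - (i + 1)) *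
        (((i : ℝ) + 1) * (1 - x))
      = (((R.choose (i + 1) : ℕ) : ℝ) * ((i : ℝ) + 1)) * x ^ i * x *
        (1 - x) ^ (R - (i + 1)) * (1 - x) := by ring
    _ = _ := by rw [e3]; ring

theorem BIM_step {x : ℝ} (_h0 : 0 ≤ x) (_h1 : x ≤ 1) {n i : ℕ} (hi : i ≤ n) :
    ∃ i', i' ≤ n + 1 ∧ BIM_B x n i ≤ ((n : ℝ) + 2) / ((n : ℝ) + 1) * BIM_B x (n + 1) i' := by
  have ha := BIM_a x hi
  have hb := BIM_b x n i
  have hn : (0 : ℝ) < (n : ℝ) + 1 := by positivity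
  have hin : (i : ℝ) ≤ n := by exact_mod_cast hi
  have hi0 : (0 : ℝ) ≤ i := Nat.cast_nonneg i
  have key : BIM_B x n i * ((n : ℝ) + 1) =
      BIM_B x (n + 1) i * ((n : ℝ) + 1 - i) + BIM_B x (n + 1) (i + 1) * ((i : ℝ) + 1) := by
    rw [ha, hb]
    ring
  rcases le_total (BIM_B x (n + 1) i) (BIM_B x (n + 1) (i + 1)) with h | h
  · refine ⟨i + 1, by omega, ?_⟩
    rw [div_mul_eq_mul_div, le_div_iff₀ hn, key]
    nlinarith
  · refine ⟨i, by omega, ?_⟩
    rw [div_mul_eq_mul_div, le_div_iff₀ hn, key]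
    nlinarith

theorem BIM_one {x : ℝ} (h0 : 0 ≤ x) (h1 : x ≤ 1) {a R : ℕ} (h : a ≤ R) {i : ℕ} (hi : i ≤ a) :
    ∃ i', i' ≤ R ∧ BIM_B x a i ≤ ((R : ℝ) + 1) / ((a : ℝ) + 1) * BIM_B x R i' := by
  have ha : (0 : ℝ) < (a : ℝ) + 1 := by positivity
  induction R, h using Nat.le_induction with
  | base =>
    refine ⟨i, hi, ?_⟩
    rw [div_self ha.ne', one_mul]
  | succ R hR ih =>
    obtain ⟨i', h2, h3⟩ := ih
    obtain ⟨i'', h4, h5⟩ := BIM_step h0 h1 h2
    refine ⟨i'', h4, ?_⟩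
    have hR1 : (0 : ℝ) < (R : ℝ) + 1 := by positivity
    calc BIM_B x a i ≤ ((R : ℝ) + 1) / ((a : ℝ) + 1) * BIM_B x R i' := h3
      _ ≤ ((R : ℝ) + 1) / ((a : ℝ) + 1) *
          (((R : ℝ) + 2) / ((R : ℝ) + 1) * BIM_B x (R + 1) i'') :=
          mul_le_mul_of_nonneg_left h5 (div_nonneg hR1.le ha.le)
      _ = (((R + 1 : ℕ) : ℝ) + 1) / ((a : ℝ) + 1) * BIM_B x (R + 1) i'' := by
          push_cast
          field_simp
          ring

theorem BIM_up {R τ : ℕ} (hR : 1 ≤ R) (hτ : τ < R) {i : ℕ} (hi : i + 1 ≤ τ) :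
    BIM_B ((τ : ℝ) / R) R i ≤ BIM_B ((τ : ℝ) / R) R (i + 1) := by
  have hR0 : (0 : ℝ) < R := by exact_mod_cast hR
  set x : ℝ := (τ : ℝ) / R with hx
  have hxR : x * R = τ := by rw [hx]; field_simp
  have h0 : 0 ≤ x := by positivity
  have hτ' : (τ : ℝ) < R := by exact_mod_cast hτ
  have h1 : x < 1 := by rw [hx, div_lt_one hR0]; exact hτ'
  have hi' : (i : ℝ) + 1 ≤ τ := by exact_mod_cast hi
  have hc := BIM_c x (show i < R by omega)
  have hB := BIM_nonneg h0 h1.le R i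
  have hi0 : (0 : ℝ) ≤ i := Nat.cast_nonneg i
  have h2 : ((i : ℝ) + 1) * (1 - x) ≤ ((R : ℝ) - i) * x := by nlinarith
  have h3 : 0 < ((i : ℝ) + 1) * (1 - x) := mul_pos (by linarith) (by linarith)
  have h4 : BIM_B x R i * (((i : ℝ) + 1) * (1 - x)) ≤
      BIM_B x R (i + 1) * (((i : ℝ) + 1) * (1 - x)) := by
    rw [hc]
    exact mul_le_mul_of_nonneg_left h2 hB
  exact le_of_mul_le_mul_right h4 h3

theorem BIM_down {R τ : ℕ} (hR : 1 ≤ R) {i : ℕ} (hi : τ ≤ i) (hiR : i < R) :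
    BIM_B ((τ : ℝ) / R) R (i + 1) ≤ BIM_B ((τ : ℝ) / R) R i := by
  have hR0 : (0 : ℝ) < R := by exact_mod_cast hR
  set x : ℝ := (τ : ℝ) / R with hx
  have hxR : x * R = τ := by rw [hx]; field_simp
  have h0 : 0 ≤ x := by positivity
  have hτ' : (τ : ℝ) < R := by exact_mod_cast (lt_of_le_of_lt hi hiR)
  have h1 : x < 1 := by rw [hx, div_lt_one hR0]; exact hτ'
  have hi' : (τ : ℝ) ≤ i := by exact_mod_cast hi
  have hc := BIM_c x hiR
  have hB := BIM_nonneg h0 h1.le R i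
  have hi0 : (0 : ℝ) ≤ i := Nat.cast_nonneg i
  have h2 : ((R : ℝ) - i) * x ≤ ((i : ℝ) + 1) * (1 - x) := by nlinarith
  have h3 : 0 < ((i : ℝ) + 1) * (1 - x) := mul_pos (by linarith) (by linarith)
  have h4 : BIM_B x R (i + 1) * (((i : ℝ) + 1) * (1 - x)) ≤
      BIM_B x R i * (((i : ℝ) + 1) * (1 - x)) := by
    rw [hc]
    exact mul_le_mul_of_nonneg_left h2 hB
  exact le_of_mul_le_mul_right h4 h3

theorem BIM_two {R τ i : ℕ} (hR : 1 ≤ R) (hτ : τ ≤ R) (hi : i ≤ R) :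
    BIM_B ((τ : ℝ) / R) R i ≤ BIM_B ((τ : ℝ) / R) R τ := by
  have hR0 : (0 : ℝ) < R := by exact_mod_cast hR
  rcases Nat.lt_or_ge τ R with h | h
  · rcases Nat.le_total i τ with h2 | h2
    · -- increasing up to τ
      have key : ∀ d : ℕ, d ≤ τ →
          BIM_B ((τ : ℝ) / R) R (τ - d) ≤ BIM_B ((τ : ℝ) / R) R τ := by
        intro d
        induction d with
        | zero => intro _; exact le_rfl
        | succ d ih =>
          intro hd
          have e : τ - (d + 1) + 1 = τ - d := by omega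
          have h3 := BIM_up hR h (i := τ - (d + 1)) (by omega)
          rw [e] at h3
          exact h3.trans (ih (by omega))
      have e : i = τ - (τ - i) := by omega
      rw [e]
      exact key (τ - i) (by omega)
    · have key : ∀ j : ℕ, τ ≤ j → j ≤ R →
          BIM_B ((τ : ℝ) / R) R j ≤ BIM_B ((τ : ℝ) / R) R τ := by
        intro j hj
        induction j, hj using Nat.le_induction with
        | base => intro _; exact le_rfl
        | succ j hj ih =>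
          intro hjR
          exact (BIM_down hR hj (by omega)).trans (ih (by omega))
      exact key i h2 hi
  · have e : τ = R := le_antisymm hτ h
    rcases Nat.lt_or_ge i R with h2 | h2
    · have h3 : BIM_B ((τ : ℝ) / R) R i = 0 := by
        unfold BIM_B
        rw [e, div_self hR0.ne', sub_self, zero_pow (by omega), mul_zero]
      rw [h3]
      refine BIM_nonneg (by positivity) ?_ R τ
      rw [e, div_self hR0.ne']
    · have e2 : i = τ := by omega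
      rw [e2]

theorem BIM_proof : BIM_stmt :=
  ⟨fun _ _ _ _ h0 h1 h hi => BIM_one h0 h1 h hi, fun _ _ _ hR hτ hi => BIM_two hR hτ hi⟩

end Pool.Agent.ISA
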